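import Pool.Agent.K7.H98.PS.B2

namespace Pool.Agent.K7.H98.PS

theorem stB : Pool.Agent.H76.PS.StB := B2.stB2 B1.stB1

end Pool.Agent.K7.H98.PS
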