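import Pool.Agent.H76.PS.Defs

set_option autoImplicit false

namespace Pool.Agent.K7.H98.PS.B1

open Pool.Agent.H76.PS

variable {G : Type} [Group G] [TopologicalSpace G]

/-- coboundary -/
noncomputable def dl (χ : G → ℤ_[2]) (f : G → ℤ_[2]) : G → G → ℤ_[2] :=
  fun x y => f x + χ x * f y - f (x * y)

lemma toZMod_eq_iff (x y : ℤ_[2]) :
    PadicInt.toZMod x = PadicInt.toZMod y ↔ (2 : ℤ_[2]) ∣ x - y := by
  rw [← sub_eq_zero, ← map_sub, ← RingHom.mem_ker, PadicInt.ker_toZMod,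
    PadicInt.maximalIdeal_eq_span_p, Ideal.mem_span_singleton]
  norm_num

lemma lc_toZMod : IsLocallyConstant (fun x : ℤ_[2] => (PadicInt.toZMod x : ZMod 2)) := by
  rw [IsLocallyConstant.iff_exists_open]
  intro x
  refine ⟨Metric.ball x 1, Metric.isOpen_ball, Metric.mem_ball_self one_pos, ?_⟩
  intro y hy
  rw [toZMod_eq_iff]
  rw [Metric.mem_ball, dist_eq_norm, PadicInt.norm_lt_one_iff_dvd] at hy
  simpa using hy

lemma lc_comp {X : Type} [TopologicalSpace X] {f : X → ℤ_[2]} (hf : Continuous f) :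
    IsLocallyConstant (fun x => (PadicInt.toZMod (f x) : ZMod 2)) :=
  lc_toZMod.comp_continuous hf

lemma chi_one {χ : G → ℤ_[2]} (h : IsChar χ) (x : G) : (PadicInt.toZMod (χ x) : ZMod 2) = 1 := by
  have h1 : (PadicInt.toZMod (χ x) : ZMod 2) * PadicInt.toZMod (χ x⁻¹) = 1 := by
    rw [← map_mul, ← h.mul, mul_inv_cancel, h.one, map_one]
  have h2 : ∀ a b : ZMod 2, a * b = 1 → a = 1 := by decide
  exact h2 _ _ h1

lemma two_dvd {z : ℤ_[2]} (h : (PadicInt.toZMod z : ZMod 2) = 0) : ∃ w : ℤ_[2], z = 2 * w := by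
  rw [← map_zero (PadicInt.toZMod (p := 2)), toZMod_eq_iff, sub_zero] at h
  exact h

lemma two_ne : (2 : ℤ_[2]) ≠ 0 := two_ne_zero

lemma cont_half {X : Type} [TopologicalSpace X] {h : X → ℤ_[2]}
    (hc : Continuous (fun x => 2 * h x)) : Continuous h := by
  have hm : Topology.IsClosedEmbedding (fun t : ℤ_[2] => 2 * t) :=
    Continuous.isClosedEmbedding (by fun_prop) (mul_right_injective₀ two_ne)
  exact hm.isInducing.continuous_iff.2 hc

lemma dl_mem {χ : G → ℤ_[2]} (h : IsChar χ) [ContinuousMul G] {f : G → ℤ_[2]}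
    (hf : Continuous f) : dl χ f ∈ Zp χ := by
  have := h.cont
  refine ⟨by unfold dl; fun_prop, ?_⟩
  intro x y w
  simp only [dl, h.mul, mul_assoc]
  ring

lemma Zp_sub {χ : G → ℤ_[2]} {z z' : G → G → ℤ_[2]} (h : z ∈ Zp χ) (h' : z' ∈ Zp χ) :
    (fun x y => z x y - z' x y) ∈ Zp χ := by
  refine ⟨h.1.sub h'.1, ?_⟩
  intro x y w
  linear_combination h.2 x y w - h'.2 x y w

lemma Zp_smul {χ : G → ℤ_[2]} {z : G → G → ℤ_[2]} (a : ℤ_[2]) (h : z ∈ Zp χ) :
    (fun x y => a * z x y) ∈ Zp χ := by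
  refine ⟨continuous_const.mul h.1, ?_⟩
  intro x y w
  linear_combination a * h.2 x y w

lemma r2_mem {χ : G → ℤ_[2]} (hχ : IsChar χ) {z : G → G → ℤ_[2]} (h : z ∈ Zp χ) :
    r2 z ∈ Z2 G := by
  refine ⟨lc_comp h.1, ?_⟩
  intro x y w
  have h1 := congrArg (PadicInt.toZMod (p := 2)) (h.2 x y w)
  simp only [map_sub, map_add, map_mul, map_zero, chi_one hχ, one_mul] at h1
  have h2 : ∀ a b c d : ZMod 2, a - b + c - d = 0 → a + b + c + d = 0 := by decide
  exact h2 _ _ _ _ h1

/-- the lift of a class modulo two -/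
noncomputable def lft (a : ZMod 2) : ℤ_[2] := (a.val : ℤ_[2])

lemma toZMod_lft (a : ZMod 2) : (PadicInt.toZMod (lft a) : ZMod 2) = a := by
  rw [lft, map_natCast, ZMod.natCast_zmod_val]

lemma halve [ContinuousMul G] {χ : G → ℤ_[2]} (hχ : IsChar χ) {z : G → G → ℤ_[2]}
    (h : z ∈ Zp χ) (h2 : r2 z ∈ B2 G) : ∃ z' ∈ Zp χ, ∃ f : G → ℤ_[2], Continuous f ∧
      ∀ x y, z x y = 2 * z' x y + (f x + χ x * f y - f (x * y)) := by
  obtain ⟨a, ha, hz⟩ := h2
  set f : G → ℤ_[2] := fun x => lft (a x) with hf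
  have hfc : Continuous f := (ha.comp lft).continuous
  have hk : ∀ x y, ∃ w : ℤ_[2], z x y - dl χ f x y = 2 * w := by
    intro x y
    apply two_dvd
    have h3 := hz x y
    simp only [r2] at h3
    simp only [dl, map_sub, map_add, map_mul, h3, chi_one hχ, one_mul, hf, toZMod_lft]
    have h4 : ∀ a b c : ZMod 2, a + b + c - (a + b - c) = 0 := by decide
    exact h4 _ _ _
  choose w hw using hk
  refine ⟨w, ⟨?_, ?_⟩, f, hfc, ?_⟩
  · apply cont_half
    have h5 : (fun v : G × G => 2 * w v.1 v.2) = fun v : G × G => z v.1 v.2 - dl χ f v.1 v.2 := by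
      funext v
      rw [hw]
    rw [h5]
    exact h.1.sub (dl_mem hχ hfc).1
  · intro x y v
    have h6 := (Zp_sub h (dl_mem hχ hfc)).2 x y v
    simp only [hw] at h6
    have h7 : (2 : ℤ_[2]) * (χ x * w y v - w (x * y) v + w x (y * v) - w x y) = 0 := by
      linear_combination h6
    exact (mul_eq_zero.1 h7).resolve_left two_ne
  · intro x y
    have h8 := hw x y
    simp only [dl] at h8
    linear_combination h8

/-- successive approximation -/
lemma limit [ContinuousMul G] {χ : G → ℤ_[2]} (z₀ : G → G → ℤ_[2]) (ε : ℕ → ℤ_[2])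
    (f : ℕ → G → ℤ_[2]) (hf : ∀ n, Continuous (f n)) (zz : ℕ → G → G → ℤ_[2])
    (h : ∀ n x y, zz n x y = ε n * z₀ x y + (f n x + χ x * f n y - f n (x * y)) +
      2 * zz (n + 1) x y) :
    ∃ a : ℤ_[2], ∃ F : G → ℤ_[2], Continuous F ∧ ∀ x y,
      zz 0 x y - a * z₀ x y = F x + χ x * F y - F (x * y) := by
  have hn2 : ‖(2 : ℤ_[2])‖ = 1 / 2 := by
    have := PadicInt.norm_p (p := 2)
    norm_num at this ⊢
    exact this
  have hgeo : Summable (fun n : ℕ => ((1 : ℝ) / 2) ^ n) := summable_geometric_two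
  have hb : ∀ (n : ℕ) (t : ℤ_[2]), ‖(2 : ℤ_[2]) ^ n * t‖ ≤ ((1 : ℝ) / 2) ^ n := by
    intro n t
    rw [norm_mul, norm_pow, hn2]
    exact mul_le_of_le_one_right (by positivity) (PadicInt.norm_le_one t)
  have hsum : ∀ t : ℕ → ℤ_[2], Summable (fun n => (2 : ℤ_[2]) ^ n * t n) := fun t =>
    Summable.of_norm_bounded hgeo (fun n => hb n (t n))
  refine ⟨∑' n, 2 ^ n * ε n, fun x => ∑' n, 2 ^ n * f n x, ?_, ?_⟩
  · exact continuous_tsum (fun n => continuous_const.mul (hf n)) hgeo (fun n x => hb n (f n x))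
  · intro x y
    have h1 : ∀ N : ℕ, ∑ n ∈ Finset.range N, (2 : ℤ_[2]) ^ n *
        (ε n * z₀ x y + (f n x + χ x * f n y - f n (x * y))) = zz 0 x y - 2 ^ N * zz N x y := by
      intro N
      induction N with
      | zero => simp
      | succ N ih =>
        rw [Finset.sum_range_succ, ih]
        rw [h N x y]
        ring
    have h2 : Filter.Tendsto (fun N : ℕ => zz 0 x y - 2 ^ N * zz N x y) Filter.atTop
        (nhds (zz 0 x y)) := by
      have h3 : Filter.Tendsto (fun N : ℕ => (2 : ℤ_[2]) ^ N * zz N x y) Filter.atTop (nhds 0) := by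
        apply squeeze_zero_norm (fun N => hb N (zz N x y))
        exact tendsto_pow_atTop_nhds_zero_of_lt_one (by norm_num) (by norm_num)
      simpa using h3.const_sub (zz 0 x y)
    have h4 := (hsum (fun n => ε n * z₀ x y + (f n x + χ x * f n y - f n (x * y)))).hasSum.tendsto_sum_nat
    simp only [h1] at h4
    have h5 := tendsto_nhds_unique h2 h4
    rw [h5]
    have h6 : ∑' n, (2 : ℤ_[2]) ^ n * (ε n * z₀ x y + (f n x + χ x * f n y - f n (x * y))) =
        (∑' n, 2 ^ n * ε n) * z₀ x y + ((∑' n, 2 ^ n * f n x) + χ x * (∑' n, 2 ^ n * f n y) -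
          ∑' n, 2 ^ n * f n (x * y)) := by
      have k1 := (hsum ε).hasSum.mul_right (z₀ x y)
      have k2 := (hsum (fun n => f n x)).hasSum
      have k3 := (hsum (fun n => f n y)).hasSum.mul_left (χ x)
      have k4 := (hsum (fun n => f n (x * y))).hasSum
      have k5 := k1.add ((k2.add k3).sub k4)
      rw [← k5.tsum_eq]
      congr 1
      funext n
      ring
    rw [h6]
    ring

theorem stB1 : StB1 := by
  intro G _ _ _ _ χ hχ hyp
  refine ⟨fun z hz => r2_mem hχ hz, fun z hz h2 => halve hχ hz h2, ?_, ?_⟩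
  · intro z₀ hz₀ hn z hz
    have step : ∀ w : Zp χ, ∃ (e : ℤ_[2]) (f : G → ℤ_[2]) (w' : Zp χ), Continuous f ∧
        ∀ x y, w.1 x y = e * z₀ x y + (f x + χ x * f y - f (x * y)) + 2 * w'.1 x y := by
      rintro ⟨w, hw⟩
      by_cases h2 : r2 w ∈ B2 G
      · obtain ⟨w', hw', f, hf, h⟩ := halve hχ hw h2
        exact ⟨0, f, ⟨w', hw'⟩, hf, fun x y => by linear_combination h x y⟩
      · have h3 := hyp (r2 w) (r2_mem hχ hw) (r2 z₀) (r2_mem hχ hz₀) h2 hn
        have h4 : r2 (fun x y => w x y - z₀ x y) ∈ B2 G := by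
          have h5 : r2 (fun x y => w x y - z₀ x y) = r2 w + r2 z₀ := by
            funext x y
            simp only [r2, map_sub, Pi.add_apply]
            have h6 : ∀ a b : ZMod 2, a - b = a + b := by decide
            exact h6 _ _
          rw [h5]
          exact h3
        obtain ⟨w', hw', f, hf, h⟩ := halve hχ (Zp_sub hw hz₀) h4
        exact ⟨1, f, ⟨w', hw'⟩, hf, fun x y => by linear_combination h x y⟩
    choose e f w' hf h using step
    set s : ℕ → Zp χ := fun n => Nat.rec ⟨z, hz⟩ (fun _ w => w' w) n with hs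
    obtain ⟨a, F, hF, hh⟩ := limit z₀ (fun n => e (s n)) (fun n => f (s n)) (fun n => hf (s n))
      (fun n => (s n).1) (χ := χ) (fun n x y => h (s n) x y)
    exact ⟨a, F, hF, hh⟩
  · intro z hz
    by_cases hall : ∃ (k : ℕ), ∃ z' ∈ Zp χ, r2 z' ∉ B2 G ∧
        (fun x y => z x y - 2 ^ k * z' x y) ∈ Bp χ
    · exact Or.inr hall
    · left
      push Not at hall
      have step : ∀ w : {w : G → G → ℤ_[2] // w ∈ Zp χ ∧ ∃ k : ℕ,
          (fun x y => z x y - 2 ^ k * w x y) ∈ Bp χ}, ∃ (f : G → ℤ_[2])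
          (w' : {w : G → G → ℤ_[2] // w ∈ Zp χ ∧ ∃ k : ℕ,
            (fun x y => z x y - 2 ^ k * w x y) ∈ Bp χ}), Continuous f ∧
          ∀ x y, w.1 x y = (0 : ℤ_[2]) * z x y + (f x + χ x * f y - f (x * y)) + 2 * w'.1 x y := by
        rintro ⟨w, hw, k, g, hg, hk⟩
        have h2 : r2 w ∈ B2 G := by
          by_contra hc
          exact hall k w hw hc ⟨g, hg, hk⟩
        obtain ⟨w', hw', f, hf, h⟩ := halve hχ hw h2
        refine ⟨f, ⟨w', hw', k + 1, fun x => g x + 2 ^ k * f x, by fun_prop, ?_⟩, hf, ?_⟩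
        · intro x y
          have h3 := hk x y
          simp only at h3 ⊢
          rw [h x y] at h3
          rw [pow_succ]
          linear_combination h3
        · intro x y
          linear_combination h x y
      choose f w' hf h using step
      have h0 : z ∈ Zp χ ∧ ∃ k : ℕ, (fun x y => z x y - 2 ^ k * z x y) ∈ Bp χ := by
        refine ⟨hz, 0, fun _ => 0, continuous_const, fun x y => by simp⟩
      set s : ℕ → {w : G → G → ℤ_[2] // w ∈ Zp χ ∧ ∃ k : ℕ,
          (fun x y => z x y - 2 ^ k * w x y) ∈ Bp χ} := fun n =>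
        Nat.rec ⟨z, h0⟩ (fun _ w => w' w) n with hs
      obtain ⟨a, F, hF, hh⟩ := limit (χ := χ) (fun _ _ => (0 : ℤ_[2])) (fun _ => 0)
        (fun n => f (s n)) (fun n => hf (s n)) (fun n => (s n).1) (fun n x y => by
          have := h (s n) x y
          rw [this]
          ring)
      refine ⟨F, hF, fun x y => ?_⟩
      have := hh x y
      simp only [mul_zero, sub_zero] at this
      exact this

end Pool.Agent.K7.H98.PS.B1
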