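import Pool.Agent.K7.H98.PS.B1

set_option autoImplicit false

namespace Pool.Agent.K7.H98.PS.B2

open Pool.Agent.H76.PS Pool.Agent.K7.H98.PS.B1

/-! ### arithmetic modulo four -/

/-- reduction `ℤ/4 → ℤ/2` -/
def pr : ZMod (2 ^ 2) →+* ZMod 2 := ZMod.castHom (by norm_num : 2 ∣ 2 ^ 2) (ZMod 2)

/-- multiplication by two `ℤ/2 → ℤ/4` -/
def db (v : ZMod 2) : ZMod (2 ^ 2) := if v = 0 then 0 else 2

/-- half of an even element -/
def hf (u : ZMod (2 ^ 2)) : ZMod 2 := if u = 2 then 1 else 0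

/-- lift -/
def lf (v : ZMod 2) : ZMod (2 ^ 2) := if v = 0 then 0 else 1

lemma db_add : ∀ a b : ZMod 2, db (a + b) = db a + db b := by decide
lemma db_inj : ∀ a b : ZMod 2, db a = db b → a = b := by decide
lemma db_neg : ∀ a : ZMod 2, - db a = db a := by decide
lemma mul_db : ∀ (c : ZMod (2 ^ 2)) (a : ZMod 2), pr c = 1 → c * db a = db a := by decide
lemma pr_lf : ∀ a : ZMod 2, pr (lf a) = a := by decide
lemma db_hf : ∀ u : ZMod (2 ^ 2), pr u = 0 → db (hf u) = u := by decide
lemma db_pr : ∀ u : ZMod (2 ^ 2), db (pr u) = 2 * u := by decide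

lemma pr_zmod (x : ℤ_[2]) : pr (PadicInt.toZModPow 2 x) = PadicInt.toZMod x := by
  set n : ℕ := (PadicInt.toZMod x).val with hn
  have h1 : (PadicInt.toZMod x : ZMod 2) = PadicInt.toZMod ((n : ℕ) : ℤ_[2]) := by
    rw [map_natCast, hn, ZMod.natCast_zmod_val]
  obtain ⟨y, hy⟩ := (toZMod_eq_iff _ _).1 h1
  have hx : x = n + 2 * y := by linear_combination hy
  have h2 : ∀ φ : ℤ_[2] →+* ZMod 2, φ x = n := by
    intro φ
    rw [hx, map_add, map_mul, map_natCast]
    have : φ 2 = 0 := by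
      rw [map_ofNat]
      decide
    rw [this, zero_mul, add_zero]
  have h3 := h2 (pr.comp (PadicInt.toZModPow 2))
  rw [RingHom.comp_apply] at h3
  rw [h3, h2]

lemma lc_pow : IsLocallyConstant (fun x : ℤ_[2] => (PadicInt.toZModPow 2 x : ZMod (2 ^ 2))) := by
  rw [IsLocallyConstant.iff_exists_open]
  intro x
  refine ⟨Metric.ball x ((1 : ℝ) / 2), Metric.isOpen_ball, Metric.mem_ball_self (by norm_num), ?_⟩
  intro y hy
  rw [← sub_eq_zero, ← map_sub, ← RingHom.mem_ker, PadicInt.ker_toZModPow]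
  rw [Metric.mem_ball, dist_eq_norm] at hy
  rw [← PadicInt.norm_le_pow_iff_mem_span_pow, PadicInt.norm_le_pow_iff_norm_lt_pow_add_one]
  norm_num
  simpa using hy

section

variable {G : Type} [Group G] [TopologicalSpace G]

lemma pr_chi {χ : G → ℤ_[2]} (h : IsChar χ) (x : G) : pr (PadicInt.toZModPow 2 (χ x)) = 1 := by
  rw [pr_zmod, chi_one h]

/-- coboundary modulo four -/
noncomputable def d4 (χ : G → ℤ_[2]) (g : G → ZMod (2 ^ 2)) : G → G → ZMod (2 ^ 2) :=
  fun x y => g x + PadicInt.toZModPow 2 (χ x) * g y - g (x * y)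

lemma d4_lc [ContinuousMul G] {χ : G → ℤ_[2]} (hχ : IsChar χ) {g : G → ZMod (2 ^ 2)}
    (hg : IsLocallyConstant g) : IsLocallyConstant (fun v : G × G => d4 χ g v.1 v.2) := by
  have h2 : IsLocallyConstant (fun v : G × G => g v.1) := hg.comp_continuous continuous_fst
  have h3 : IsLocallyConstant (fun v : G × G => g v.2) := hg.comp_continuous continuous_snd
  have h4 : IsLocallyConstant (fun v : G × G => g (v.1 * v.2)) := hg.comp_continuous continuous_mul
  have h5 : IsLocallyConstant (fun v : G × G => (PadicInt.toZModPow 2 (χ v.1) :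
    ZMod (2 ^ 2))) := lc_pow.comp_continuous (hχ.cont.comp continuous_fst)
  exact (h2.add (h5.mul h3)).sub h4

lemma d4_co {χ : G → ℤ_[2]} (hχ : IsChar χ) (g : G → ZMod (2 ^ 2)) (x y v : G) :
    PadicInt.toZModPow 2 (χ x) * d4 χ g y v - d4 χ g (x * y) v + d4 χ g x (y * v) - d4 χ g x y
      = 0 := by
  simp only [d4, hχ.mul, map_mul, mul_assoc]
  ring

lemma d4_add (χ : G → ℤ_[2]) (g h : G → ZMod (2 ^ 2)) (x y : G) :
    d4 χ (fun x => g x + h x) x y = d4 χ g x y + d4 χ h x y := by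
  simp only [d4]
  ring

lemma d4_sub (χ : G → ℤ_[2]) (g h : G → ZMod (2 ^ 2)) (x y : G) :
    d4 χ (fun x => g x - h x) x y = d4 χ g x y - d4 χ h x y := by
  simp only [d4]
  ring

lemma d4_smul (χ : G → ℤ_[2]) (t : ZMod (2 ^ 2)) (g : G → ZMod (2 ^ 2)) (x y : G) :
    d4 χ (fun x => t * g x) x y = t * d4 χ g x y := by
  simp only [d4]
  ring

lemma d4_db {χ : G → ℤ_[2]} (hχ : IsChar χ) (b : G → ZMod 2) (x y : G) :
    d4 χ (fun x => db (b x)) x y = db (b x + b y + b (x * y)) := by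
  simp only [d4, db_add, mul_db _ _ (pr_chi hχ x)]
  rw [sub_eq_add_neg, db_neg]

/-- the class modulo four is an odd multiple of `z₀` -/
lemma odd_mult [ContinuousMul G] {χ : G → ℤ_[2]} (hχ : IsChar χ)
    (hyp : ∀ e₁ ∈ Z2 G, ∀ e₂ ∈ Z2 G, e₁ ∉ B2 G → e₂ ∉ B2 G → e₁ + e₂ ∈ B2 G)
    {z₀ : G → G → ℤ_[2]} (hz₀ : z₀ ∈ Zp χ) (hn : r2 z₀ ∉ B2 G)
    {w : G → G → ZMod (2 ^ 2)} (hw : IsLocallyConstant (fun v : G × G => w v.1 v.2))
    (hco : ∀ x y v, PadicInt.toZModPow 2 (χ x) * w y v - w (x * y) v + w x (y * v) - w x y = 0)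
    (hwn : (fun x y => pr (w x y)) ∉ B2 G) :
    ∃ (t : ZMod (2 ^ 2)) (g : G → ZMod (2 ^ 2)), pr t = 1 ∧ IsLocallyConstant g ∧
      ∀ x y, w x y = t * PadicInt.toZModPow 2 (z₀ x y) + d4 χ g x y := by
  have hwm : (fun x y => pr (w x y)) ∈ Z2 G := by
    refine ⟨hw.comp pr, ?_⟩
    intro x y v
    have h1 := congrArg pr (hco x y v)
    simp only [map_sub, map_add, map_mul, map_zero, pr_chi hχ, one_mul] at h1
    have h2 : ∀ a b c d : ZMod 2, a - b + c - d = 0 → a + b + c + d = 0 := by decide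
    exact h2 _ _ _ _ h1
  obtain ⟨a, ha, haw⟩ := hyp _ hwm _ (r2_mem hχ hz₀) hwn hn
  have hAl : IsLocallyConstant (fun x => lf (a x)) := ha.comp lf
  -- the difference
  set u : G → G → ZMod (2 ^ 2) := fun x y => w x y - PadicInt.toZModPow 2 (z₀ x y) -
    d4 χ (fun x => lf (a x)) x y with hu
  have hul : IsLocallyConstant (fun v : G × G => u v.1 v.2) := by
    have h1 : IsLocallyConstant (fun v : G × G => (PadicInt.toZModPow 2 (z₀ v.1 v.2) :
      ZMod (2 ^ 2))) := lc_pow.comp_continuous hz₀.1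
    exact (hw.sub h1).sub (d4_lc hχ hAl)
  have hue : ∀ x y, pr (u x y) = 0 := by
    intro x y
    have h2 := haw x y
    simp only [Pi.add_apply, r2] at h2
    simp only [hu, d4, map_sub, map_add, map_mul, pr_chi hχ, one_mul, pr_lf, pr_zmod]
    have h3 : ∀ p q r s t : ZMod 2, p + q = r + s + t → p - q - (r + s - t) = 0 := by decide
    exact h3 _ _ _ _ _ h2
  have huc : ∀ x y v, PadicInt.toZModPow 2 (χ x) * u y v - u (x * y) v + u x (y * v) - u x y
      = 0 := by
    intro x y v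
    have h1 := hco x y v
    have h2 := congrArg (PadicInt.toZModPow 2) (hz₀.2 x y v)
    simp only [map_sub, map_add, map_mul, map_zero] at h2
    have h3 := d4_co hχ (fun x => lf (a x)) x y v
    simp only [hu]
    linear_combination h1 - h2 - h3
  have hdb : ∀ x y, db (hf (u x y)) = u x y := fun x y => db_hf _ (hue x y)
  have hvm : (fun x y => hf (u x y)) ∈ Z2 G := by
    refine ⟨hul.comp hf, ?_⟩
    intro x y v
    apply db_inj
    simp only [db_add, hdb]
    have h1 := huc x y v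
    rw [← hdb y v, mul_db _ _ (pr_chi hχ x), hdb y v] at h1
    have h2 : u (x * y) v = - u (x * y) v := by rw [← hdb (x * y) v, db_neg]
    have h3 : u x y = - u x y := by rw [← hdb x y, db_neg]
    have h4 : db 0 = 0 := by decide
    rw [h4]
    calc u y v + u (x * y) v + u x (y * v) + u x y
        = u y v + (- u (x * y) v) + u x (y * v) + (- u x y) := by rw [← h2, ← h3]
      _ = 0 := by linear_combination h1
  have hvb : ∃ (t : ZMod 2) (b : G → ZMod 2), IsLocallyConstant b ∧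
      ∀ x y, hf (u x y) = t * PadicInt.toZMod (z₀ x y) + (b x + b y + b (x * y)) := by
    by_cases hv : (fun x y => hf (u x y)) ∈ B2 G
    · obtain ⟨b, hb, h⟩ := hv
      exact ⟨0, b, hb, fun x y => by rw [zero_mul, zero_add]; exact h x y⟩
    · obtain ⟨b, hb, h⟩ := hyp _ hvm _ (r2_mem hχ hz₀) hv hn
      refine ⟨1, b, hb, fun x y => ?_⟩
      have h1 := h x y
      simp only [Pi.add_apply, r2] at h1
      have h2 : ∀ p q r : ZMod 2, p + q = r → p = 1 * q + r := by decide
      exact h2 _ _ _ h1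
  obtain ⟨t, b, hb, hv⟩ := hvb
  refine ⟨1 + db t, fun x => lf (a x) + db (b x), ?_, hAl.add (hb.comp db), ?_⟩
  · have : ∀ t : ZMod 2, pr (1 + db t) = 1 := by decide
    exact this t
  · intro x y
    have h1 := congrArg db (hv x y)
    rw [hdb, db_add, ← d4_db hχ] at h1
    have h2 : ∀ (t : ZMod 2) (c : ZMod (2 ^ 2)), db (t * pr c) = db t * c := by decide
    rw [← pr_zmod, h2] at h1
    rw [d4_add, add_mul, one_mul]
    simp only [hu] at h1
    linear_combination h1

/-- the sign is not `-1` -/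
lemma not_neg [IsTopologicalGroup G] {χ : G → ℤ_[2]} (hχ : IsChar χ)
    (hyp : ∀ e₁ ∈ Z2 G, ∀ e₂ ∈ Z2 G, e₁ ∉ B2 G → e₂ ∉ B2 G → e₁ + e₂ ∈ B2 G)
    (hL : Lifts χ) {c : G → G} (hc : Continuous c) (hcm : ∀ x y, c (x * y) = c x * c y)
    (hχc : ∀ x, χ (c x) = χ x) (hcls : Cls4 χ c)
    {z₀ : G → G → ℤ_[2]} (hz₀ : z₀ ∈ Zp χ) (hn : r2 z₀ ∉ B2 G)
    {f : G → ℤ_[2]} (hf' : Continuous f)
    (h : ∀ x y, z₀ (c x) (c y) = - z₀ x y + (f x + χ x * f y - f (x * y))) : False := by
  obtain ⟨w, hw, hco, hwn, φ, hφ, hwc⟩ := hcls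
  obtain ⟨t, g, ht, hg, hwg⟩ := odd_mult hχ hyp hz₀ hn hw hco hwn
  -- `2 z₀` is a coboundary modulo four
  set F : G → ZMod (2 ^ 2) := fun x => PadicInt.toZModPow 2 (f x) with hF
  have hFl : IsLocallyConstant F := lc_pow.comp_continuous hf'
  set H : G → ZMod (2 ^ 2) := fun x => (t * F x + g (c x)) - g x - φ x with hH
  have hHl : IsLocallyConstant H :=
    (((hFl.comp (fun z => t * z)).add (hg.comp_continuous hc)).sub hg).sub hφ
  have h2z : ∀ x y, 2 * PadicInt.toZModPow 2 (z₀ x y) = d4 χ H x y := by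
    intro x y
    have h1 := hwc x y
    rw [hwg, hwg] at h1
    have h3 := congrArg (PadicInt.toZModPow 2) (h x y)
    simp only [map_sub, map_add, map_mul, map_neg] at h3
    rw [h3] at h1
    have h5 : d4 χ g (c x) (c y) = d4 χ (fun x => g (c x)) x y := by
      simp only [d4, hcm, hχc]
    rw [h5] at h1
    have h6 : d4 χ H x y = t * d4 χ F x y + d4 χ (fun x => g (c x)) x y - d4 χ g x y -
        d4 χ φ x y := by
      simp only [hH, d4]
      ring
    rw [h6]
    have h7 : ∀ t z : ZMod (2 ^ 2), pr t = 1 → 2 * t * z = 2 * z := by decide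
    rw [← h7 t _ ht]
    simp only [d4, hF] at h1 ⊢
    linear_combination -h1
  have hπ : ∀ x y, pr (H (x * y)) = pr (H x) + pr (H y) := by
    intro x y
    have h1 := congrArg pr (h2z x y)
    simp only [d4, map_sub, map_add, map_mul, pr_chi hχ, one_mul] at h1
    have h2 : (pr 2) = 0 := by decide
    rw [h2, zero_mul] at h1
    linear_combination h1
  obtain ⟨κ, hκ, hκm, hκr⟩ := hL (fun x => pr (H x)) ⟨hHl.comp pr, hπ⟩
  set K : G → ZMod (2 ^ 2) := fun x => PadicInt.toZModPow 2 (κ x) with hK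
  have hKl : IsLocallyConstant K := lc_pow.comp_continuous hκ
  have hK0 : ∀ x y, d4 χ K x y = 0 := by
    intro x y
    simp only [d4, hK, hκm, map_add, map_mul]
    ring
  have hev : ∀ x, pr (H x - K x) = 0 := by
    intro x
    rw [map_sub, hK, pr_zmod, hκr, sub_self]
  apply hn
  refine ⟨fun x => hf (H x - K x), (hHl.sub hKl).comp hf, ?_⟩
  intro x y
  apply db_inj
  beta_reduce
  rw [← d4_db hχ (fun x => hf (H x - K x)) x y, r2, ← pr_zmod, db_pr, h2z]
  have h1 : (fun x => db (hf (H x - K x))) = fun x => H x - K x := by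
    funext x
    exact db_hf _ (hev x)
  rw [h1, d4_sub χ H K, hK0, sub_zero]

end

lemma sq_eq_one_iff_of_side_cond (a : ℤ_[2]) (h : a ^ 2 = 1) : a = 1 ∨ a = -1 := by
  have h1 : (a - 1) * (a + 1) = 0 := by linear_combination h
  rcases mul_eq_zero.1 h1 with h2 | h2
  · left
    linear_combination h2
  · right
    linear_combination h2

theorem stB2 : StB2 := by
  intro hB1 G _ _ _ _ χ hχ hyp hL c hc hcm hcc hχc hcls
  obtain ⟨-, -, hgen, hdiv⟩ := hB1 G χ hχ hyp
  -- transport by `c`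
  have htr : ∀ z ∈ Zp χ, (fun x y => z (c x) (c y)) ∈ Zp χ := by
    intro z hz
    refine ⟨hz.1.comp (hc.prodMap hc), ?_⟩
    intro x y v
    have := hz.2 (c x) (c y) (c v)
    rw [hχc, ← hcm, ← hcm] at this
    exact this
  by_cases hall : ∀ z ∈ Zp χ, z ∈ Bp χ
  · refine ⟨⟨fun _ _ => 0, ⟨continuous_const, fun x y v => by simp⟩, ?_⟩, ?_⟩
    · intro z hz
      obtain ⟨f, hf, h⟩ := hall z hz
      refine ⟨0, fun x => (f x : ℚ_[2]), by fun_prop, fun x y => ?_⟩
      beta_reduce
      rw [h x y]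
      push_cast
      ring
    · intro z hz
      obtain ⟨f, hf, h⟩ := hall z hz
      refine ⟨fun x => (f (c x) : ℚ_[2]) - f x, by fun_prop, fun x y => ?_⟩
      simp only [h, hcm, hχc]
      push_cast
      ring
  · push Not at hall
    obtain ⟨z₁, hz₁, hz₁n⟩ := hall
    obtain ⟨k, z₀, hz₀, hn, -⟩ := (hdiv z₁ hz₁).resolve_left hz₁n
    obtain ⟨lam, f, hf, hlam⟩ := hgen z₀ hz₀ hn _ (htr z₀ hz₀)
    simp only at hlam
    have hkey : (fun x y => ((z₀ (c x) (c y) : ℤ_[2]) : ℚ_[2]) - (z₀ x y : ℤ_[2])) ∈ Bq χ := by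
      have hsq : ∀ x y, (1 - lam ^ 2) * z₀ x y = (lam * f x + f (c x)) +
          χ x * (lam * f y + f (c y)) - (lam * f (x * y) + f (c (x * y))) := by
        intro x y
        have h1 := hlam x y
        have h2 := hlam (c x) (c y)
        simp only [hcc, hχc, ← hcm] at h2
        linear_combination lam * h1 + h2
      by_cases h1 : lam ^ 2 = 1
      · rcases (sq_eq_one_iff_of_side_cond lam h1) with h2 | h2
        · refine ⟨fun x => (f x : ℚ_[2]), by fun_prop, fun x y => ?_⟩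
          have h3 := hlam x y
          rw [h2, one_mul] at h3
          have h4 := congrArg (fun t : ℤ_[2] => (t : ℚ_[2])) h3
          push_cast at h4
          exact h4
        · exfalso
          refine not_neg hχ hyp hL hc hcm hχc hcls hz₀ hn hf (fun x y => ?_)
          have h3 := hlam x y
          rw [h2] at h3
          linear_combination h3
      · have h2 : ((1 - lam ^ 2 : ℤ_[2]) : ℚ_[2]) ≠ 0 := by
          rw [Ne, PadicInt.coe_eq_zero]
          intro h3
          exact h1 (by linear_combination -h3)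
        set e : G → ℚ_[2] := fun x => ((1 - lam ^ 2 : ℤ_[2]) : ℚ_[2])⁻¹ *
          ((lam * f x + f (c x) : ℤ_[2]) : ℚ_[2]) with he
        have hec : Continuous e := by
          rw [he]
          fun_prop
        have hez : ∀ x y, ((z₀ x y : ℤ_[2]) : ℚ_[2]) = e x + χ x * e y - e (x * y) := by
          intro x y
          have h3 := congrArg (fun t : ℤ_[2] => (t : ℚ_[2])) (hsq x y)
          simp only [he]
          push_cast at h3 h2 ⊢
          field_simp
          linear_combination h3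
        refine ⟨fun x => e (c x) - e x, by fun_prop, fun x y => ?_⟩
        beta_reduce
        rw [hez x y, hez (c x) (c y)]
        simp only [hcm, hχc]
        ring
    refine ⟨⟨z₀, hz₀, ?_⟩, ?_⟩
    · intro z hz
      obtain ⟨a, g, hg, h⟩ := hgen z₀ hz₀ hn z hz
      refine ⟨a, fun x => (g x : ℚ_[2]), by fun_prop, fun x y => ?_⟩
      have h4 := congrArg (fun t : ℤ_[2] => (t : ℚ_[2])) (h x y)
      push_cast at h4
      exact h4
    · intro z hz
      obtain ⟨a, g, hg, h⟩ := hgen z₀ hz₀ hn z hz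
      obtain ⟨q, hq, hqz⟩ := hkey
      refine ⟨fun x => a * q x + ((g (c x) : ℚ_[2]) - g x), by fun_prop, fun x y => ?_⟩
      have h4 := congrArg (fun t : ℤ_[2] => (t : ℚ_[2])) (h x y)
      have h5 := congrArg (fun t : ℤ_[2] => (t : ℚ_[2])) (h (c x) (c y))
      have h6 := hqz x y
      simp only [hχc, ← hcm] at h4 h5 h6 ⊢
      push_cast at h4 h5
      linear_combination h5 - h4 + a * h6

end Pool.Agent.K7.H98.PS.B2
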